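import Mathlib

/-!
Definitions for the problem on weighted composition operators `C_{w,ψ} f = w · (f ∘ ψ)` on the
Fréchet space `C^∞(Ω, 𝕜)`, `Ω ⊆ ℝ^d` open.
-/

open Set Filter Topology TopologicalSpace
open scoped ContDiff Nat

namespace Pool.Agent.MP_fcbc3e_an

universe u v t

/-! ### Linear dynamics -/

section Dynamics

variable {𝕜 : Type u} [RCLike 𝕜] {X : Type t} [AddCommGroup X] [Module 𝕜 X] [TopologicalSpace X]

/-- `T` is supercyclic: some `g` has dense projective orbit `{c T^n g : n ∈ ℕ, c ∈ 𝕜}`. -/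
def Supercyclic (T : X →L[𝕜] X) : Prop :=
  ∃ g : X, Dense {h : X | ∃ (c : 𝕜) (n : ℕ), h = c • (T ^ n) g}

/-- `T` is transitive: for all nonempty open `U`, `V` there is `n` with `T^n(U) ∩ V ≠ ∅`. -/
def Transitive (T : X →L[𝕜] X) : Prop :=
  ∀ U V : Set X, IsOpen U → U.Nonempty → IsOpen V → V.Nonempty →
    ∃ n : ℕ, ((fun x => (T ^ n) x) '' U ∩ V).Nonempty

/-- `T` is chaotic: it is transitive and its set of periodic points is dense. -/
def Chaotic (T : X →L[𝕜] X) : Prop :=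
  Transitive T ∧ Dense {g : X | ∃ n : ℕ, 1 ≤ n ∧ (T ^ n) g = g}

end Dynamics

/-! ### The Fréchet space of smooth functions -/

variable (𝕜 : Type u) [RCLike 𝕜] {E : Type v} [NormedAddCommGroup E] [NormedSpace ℝ E]

/-- The `𝕜`-vector space of functions `f : E → 𝕜` which are smooth on the open set `Ω` and
vanish outside `Ω`. -/
def smoothSubmodule (Ω : Opens E) : Submodule 𝕜 (E → 𝕜) where
  carrier := {f | ContDiffOn ℝ ∞ f (Ω : Set E) ∧ ∀ x ∉ Ω, f x = 0}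
  add_mem' := by
    rintro f g ⟨hf, hf'⟩ ⟨hg, hg'⟩
    exact ⟨hf.add hg, fun x hx => by simp [hf' x hx, hg' x hx]⟩
  zero_mem' := ⟨contDiffOn_const, fun _ _ => rfl⟩
  smul_mem' := by
    rintro c f ⟨hf, hf'⟩
    exact ⟨hf.const_smul c, fun x hx => by simp [hf' x hx]⟩

/-- The space `C^∞(Ω, 𝕜)` of smooth `𝕜`-valued functions on the open set `Ω ⊆ ℝ^d`; a smooth
function on `Ω` is represented by its extension by zero to `ℝ^d`. -/
def SmoothFun (Ω : Opens E) : Type (max u v) := smoothSubmodule 𝕜 Ω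

namespace SmoothFun

variable {𝕜} {Ω : Opens E}

/-- The additive group structure of the submodule `smoothSubmodule 𝕜 Ω`. -/
noncomputable instance : AddCommGroup (SmoothFun 𝕜 Ω) :=
  Submodule.addCommGroup (smoothSubmodule 𝕜 Ω)

/-- The vector space structure of the submodule `smoothSubmodule 𝕜 Ω`. -/
noncomputable instance : Module 𝕜 (SmoothFun 𝕜 Ω) :=
  Submodule.module (smoothSubmodule 𝕜 Ω)

/-- The underlying function of `f ∈ C^∞(Ω, 𝕜)` (extended by zero outside `Ω`). -/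
instance : CoeFun (SmoothFun 𝕜 Ω) (fun _ => E → 𝕜) := ⟨fun f => f.1⟩

@[ext] theorem ext {f g : SmoothFun 𝕜 Ω} (h : ∀ x ∈ Ω, f x = g x) : f = g := by
  apply Subtype.ext
  funext x
  by_cases hx : x ∈ Ω
  · exact h x hx
  · exact (f.2.2 x hx).trans (g.2.2 x hx).symm

theorem add_apply (f g : SmoothFun 𝕜 Ω) (x : E) : (f + g) x = f x + g x := rfl
theorem sub_apply (f g : SmoothFun 𝕜 Ω) (x : E) : (f - g) x = f x - g x := rfl
theorem smul_apply (c : 𝕜) (f : SmoothFun 𝕜 Ω) (x : E) : (c • f) x = c * f x := rfl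

theorem contDiffOn (f : SmoothFun 𝕜 Ω) : ContDiffOn ℝ ∞ f (Ω : Set E) := f.2.1

theorem continuousOn_iteratedFDeriv (f : SmoothFun 𝕜 Ω) (k : ℕ) :
    ContinuousOn (iteratedFDeriv ℝ k f) (Ω : Set E) := by
  have h := f.contDiffOn.continuousOn_iteratedFDerivWithin (m := k)
    (by exact_mod_cast le_top) Ω.isOpen.uniqueDiffOn
  exact h.congr (fun x hx => (iteratedFDerivWithin_of_isOpen k Ω.isOpen hx).symm)

/-- The `k`-th derivative of `f ∈ C^∞(Ω, 𝕜)`, as a continuous map on `Ω`. -/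
noncomputable def deriv (k : ℕ) (f : SmoothFun 𝕜 Ω) : C(Ω, E [×k]→L[ℝ] 𝕜) where
  toFun x := iteratedFDeriv ℝ k f x
  continuous_toFun := continuousOn_iff_continuous_domRestrict.1 (f.continuousOn_iteratedFDeriv k)

/-- The Fréchet topology of `C^∞(Ω, 𝕜)`: the coarsest topology making all the derivative maps
`f ↦ D^k f ∈ C(Ω, ...)` continuous, where the spaces of continuous functions carry the compact-open
topology, i.e. the topology of uniform convergence on the compact subsets of `Ω`. -/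
noncomputable instance : TopologicalSpace (SmoothFun 𝕜 Ω) :=
  ⨅ k : ℕ, TopologicalSpace.induced (deriv k) ContinuousMap.compactOpen

theorem continuous_deriv (k : ℕ) : Continuous (deriv k : SmoothFun 𝕜 Ω → _) := by
  rw [continuous_iff_le_induced]
  exact iInf_le _ k

theorem tendsto_iff {ι : Type*} {l : Filter ι} {F : ι → SmoothFun 𝕜 Ω} {f : SmoothFun 𝕜 Ω} :
    Tendsto F l (𝓝 f) ↔ ∀ k, Tendsto (fun i => deriv k (F i)) l (𝓝 (deriv k f)) := by
  rw [nhds_iInf, tendsto_iInf]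
  refine forall_congr' fun k => ?_
  rw [@nhds_induced _ _ _ (deriv k), tendsto_comap_iff]
  rfl

theorem iteratedFDeriv_sub (f g : SmoothFun 𝕜 Ω) (k : ℕ) {x : E} (hx : x ∈ Ω) :
    iteratedFDeriv ℝ k (f - g : SmoothFun 𝕜 Ω) x = iteratedFDeriv ℝ k f x -
      iteratedFDeriv ℝ k g x := by
  have hf : ContDiffAt ℝ k (f : E → 𝕜) x :=
    (f.contDiffOn.contDiffAt (Ω.isOpen.mem_nhds hx)).of_le (by exact_mod_cast le_top)
  have hg : ContDiffAt ℝ k (g : E → 𝕜) x :=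
    (g.contDiffOn.contDiffAt (Ω.isOpen.mem_nhds hx)).of_le (by exact_mod_cast le_top)
  exact iteratedFDeriv_sub_apply hf hg

end SmoothFun

/-! ### Weighted composition operators -/

variable {𝕜} {Ω : Opens E}

open Classical in
/-- The function `w · (f ∘ ψ)` on `Ω`, extended by zero, as an element of `C^∞(Ω, 𝕜)`. -/
noncomputable def wcoFun (w : E → 𝕜) (ψ : E → E)
    (hw : ContDiffOn ℝ ∞ w (Ω : Set E)) (hψ : ContDiffOn ℝ ∞ ψ (Ω : Set E))
    (hm : MapsTo ψ Ω Ω) (f : SmoothFun 𝕜 Ω) : SmoothFun 𝕜 Ω :=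
  ⟨fun x => if x ∈ Ω then w x * f (ψ x) else 0, by
    refine ⟨?_, fun x hx => by simp [hx]⟩
    have h1 : ContDiffOn ℝ ∞ (fun x => w x * f (ψ x)) (Ω : Set E) :=
      hw.mul (f.contDiffOn.comp hψ hm)
    exact h1.congr (fun x hx => by simp [SetLike.mem_coe.1 hx])⟩

theorem wcoFun_apply {w : E → 𝕜} {ψ : E → E}
    {hw : ContDiffOn ℝ ∞ w (Ω : Set E)} {hψ : ContDiffOn ℝ ∞ ψ (Ω : Set E)}
    {hm : MapsTo ψ Ω Ω} (f : SmoothFun 𝕜 Ω) {x : E} (hx : x ∈ Ω) :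
    (wcoFun w ψ hw hψ hm f) x = w x * f (ψ x) := by
  classical
  show (if x ∈ Ω then w x * f (ψ x) else 0) = _
  simp [hx]

theorem wcoFun_add (w : E → 𝕜) (ψ : E → E)
    (hw : ContDiffOn ℝ ∞ w (Ω : Set E)) (hψ : ContDiffOn ℝ ∞ ψ (Ω : Set E))
    (hm : MapsTo ψ Ω Ω) (f g : SmoothFun 𝕜 Ω) :
    wcoFun w ψ hw hψ hm (f + g) = wcoFun w ψ hw hψ hm f + wcoFun w ψ hw hψ hm g := by
  apply SmoothFun.ext
  intro x hx
  rw [SmoothFun.add_apply, wcoFun_apply _ hx, wcoFun_apply _ hx, wcoFun_apply _ hx,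
    SmoothFun.add_apply, mul_add]

theorem wcoFun_smul (w : E → 𝕜) (ψ : E → E)
    (hw : ContDiffOn ℝ ∞ w (Ω : Set E)) (hψ : ContDiffOn ℝ ∞ ψ (Ω : Set E))
    (hm : MapsTo ψ Ω Ω) (c : 𝕜) (f : SmoothFun 𝕜 Ω) :
    wcoFun w ψ hw hψ hm (c • f) = c • wcoFun w ψ hw hψ hm f := by
  apply SmoothFun.ext
  intro x hx
  rw [SmoothFun.smul_apply, wcoFun_apply _ hx, wcoFun_apply _ hx, SmoothFun.smul_apply]
  ring

/-- The weighted composition operator as a linear map. -/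
noncomputable def wcoLin (w : E → 𝕜) (ψ : E → E)
    (hw : ContDiffOn ℝ ∞ w (Ω : Set E)) (hψ : ContDiffOn ℝ ∞ ψ (Ω : Set E))
    (hm : MapsTo ψ Ω Ω) : SmoothFun 𝕜 Ω →ₗ[𝕜] SmoothFun 𝕜 Ω where
  toFun := wcoFun w ψ hw hψ hm
  map_add' := wcoFun_add w ψ hw hψ hm
  map_smul' := wcoFun_smul w ψ hw hψ hm

theorem wcoLin_apply {w : E → 𝕜} {ψ : E → E}
    {hw : ContDiffOn ℝ ∞ w (Ω : Set E)} {hψ : ContDiffOn ℝ ∞ ψ (Ω : Set E)}
    {hm : MapsTo ψ Ω Ω} (f : SmoothFun 𝕜 Ω) {x : E} (hx : x ∈ Ω) :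
    (wcoLin w ψ hw hψ hm f) x = w x * f (ψ x) :=
  wcoFun_apply (hw := hw) (hψ := hψ) (hm := hm) f hx

omit [NormedSpace ℝ E] in
theorem exists_bound_of_compact {F : Type*} [NormedAddCommGroup F] {s : Set E}
    (hs : IsCompact s) (k : ℕ) (f : ℕ → E → F) (hf : ∀ i, ContinuousOn (f i) s) :
    ∃ C : ℝ, 1 ≤ C ∧ ∀ i ≤ k, ∀ x ∈ s, ‖f i x‖ ≤ C := by
  induction k with
  | zero =>
    obtain ⟨C, hC⟩ := hs.exists_bound_of_continuousOn (hf 0)
    refine ⟨max C 1, le_max_right _ _, fun i hi x hx => ?_⟩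
    rw [Nat.le_zero.1 hi]
    exact (hC x hx).trans (le_max_left _ _)
  | succ k ih =>
    obtain ⟨C, hC1, hC⟩ := ih
    obtain ⟨C', hC'⟩ := hs.exists_bound_of_continuousOn (hf (k + 1))
    refine ⟨max C C', hC1.trans (le_max_left _ _), fun i hi x hx => ?_⟩
    rcases Nat.lt_or_ge i (k + 1) with h | h
    · exact (hC i (by omega) x hx).trans (le_max_left _ _)
    · rw [le_antisymm hi h]
      exact (hC' x hx).trans (le_max_right _ _)

theorem continuous_wcoLin (w : E → 𝕜) (ψ : E → E)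
    (hw : ContDiffOn ℝ ∞ w (Ω : Set E)) (hψ : ContDiffOn ℝ ∞ ψ (Ω : Set E))
    (hm : MapsTo ψ Ω Ω) : Continuous (wcoLin w ψ hw hψ hm) := by
  rw [continuous_iff_continuousAt]
  intro f₀
  rw [ContinuousAt, SmoothFun.tendsto_iff]
  intro k
  rw [ContinuousMap.tendsto_iff_forall_isCompact_tendstoUniformlyOn]
  intro K hK
  rw [Metric.tendstoUniformlyOn_iff]
  intro ε hε
  have hkt : ∀ j : ℕ, ((j : ℕ∞) : WithTop ℕ∞) ≤ ∞ := fun j => by exact_mod_cast le_top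
  -- the compact sets
  have hK'c : IsCompact (Subtype.val '' K : Set E) := hK.image continuous_subtype_val
  have hK'Ω : (Subtype.val '' K : Set E) ⊆ Ω := by
    rintro _ ⟨x, _, rfl⟩; exact x.2
  let ψΩ : Ω → Ω := fun x => ⟨ψ x, hm x.2⟩
  have hψΩ : Continuous ψΩ :=
    Continuous.subtype_mk (continuousOn_iff_continuous_domRestrict.1 hψ.continuousOn) _
  have hLc : IsCompact (ψΩ '' K) := hK.image hψΩ
  -- bounds
  obtain ⟨W, hW1, hW⟩ := exists_bound_of_compact hK'c k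
    (fun i x => ‖iteratedFDerivWithin ℝ i w Ω x‖) (fun i =>
      ((hw.continuousOn_iteratedFDerivWithin (hkt i) Ω.isOpen.uniqueDiffOn).mono hK'Ω).norm)
  obtain ⟨D, hD1, hD⟩ := exists_bound_of_compact hK'c k
    (fun i x => ‖iteratedFDerivWithin ℝ i ψ Ω x‖) (fun i =>
      ((hψ.continuousOn_iteratedFDerivWithin (hkt i) Ω.isOpen.uniqueDiffOn).mono hK'Ω).norm)
  set B : ℝ := 2 ^ k * (W * (k ! * D ^ k)) with hB
  have hBpos : 0 < B := by positivity
  have hδ : 0 < ε / (2 * B) := by positivity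
  have hev : ∀ j, ∀ᶠ f in 𝓝 f₀, ∀ y ∈ ψΩ '' K,
      dist (SmoothFun.deriv j f₀ y) (SmoothFun.deriv j f y) < ε / (2 * B) := fun j =>
    Metric.tendstoUniformlyOn_iff.1 (ContinuousMap.tendsto_iff_forall_isCompact_tendstoUniformlyOn.1
      ((SmoothFun.continuous_deriv j).tendsto f₀) _ hLc) _ hδ
  have hev' : ∀ᶠ f in 𝓝 f₀, ∀ j ∈ Finset.range (k + 1), ∀ y ∈ ψΩ '' K,
      dist (SmoothFun.deriv j f₀ y) (SmoothFun.deriv j f y) < ε / (2 * B) :=
    (Finset.eventually_all _).2 (fun j _ => hev j)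
  filter_upwards [hev'] with f hf
  intro x hx
  show dist (iteratedFDeriv ℝ k (wcoLin w ψ hw hψ hm f₀) (x : E))
    (iteratedFDeriv ℝ k (wcoLin w ψ hw hψ hm f) (x : E)) < ε
  rw [dist_comm, dist_eq_norm, ← SmoothFun.iteratedFDeriv_sub _ _ _ x.2, ← map_sub]
  have h1 : iteratedFDeriv ℝ k (wcoLin w ψ hw hψ hm (f - f₀)) (x : E) =
      iteratedFDerivWithin ℝ k (fun y => w y * ((f - f₀ : SmoothFun 𝕜 Ω) ∘ ψ) y) Ω x := by
    rw [← iteratedFDerivWithin_of_isOpen k Ω.isOpen x.2]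
    apply iteratedFDerivWithin_congr _ x.2
    intro y hy
    exact wcoLin_apply _ hy
  rw [h1]
  have hcomp : ∀ j ≤ k, ‖iteratedFDerivWithin ℝ j ((f - f₀ : SmoothFun 𝕜 Ω) ∘ ψ) Ω x‖ ≤
      (k ! * D ^ k) * (ε / (2 * B)) := by
    intro j hj
    have h2 := norm_iteratedFDerivWithin_comp_le (f - f₀ : SmoothFun 𝕜 Ω).contDiffOn hψ (hkt j)
      Ω.isOpen.uniqueDiffOn Ω.isOpen.uniqueDiffOn hm x.2 (C := ε / (2 * B)) (D := D) ?_ ?_
    · refine h2.trans ?_
      have h3 : (j ! : ℝ) ≤ k ! := by exact_mod_cast Nat.factorial_le hj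
      have h4 : D ^ j ≤ D ^ k := pow_le_pow_right₀ hD1 hj
      calc (j ! : ℝ) * (ε / (2 * B)) * D ^ j = ((j ! : ℝ) * D ^ j) * (ε / (2 * B)) := by ring
        _ ≤ ((k ! : ℝ) * D ^ k) * (ε / (2 * B)) := by
            apply mul_le_mul_of_nonneg_right _ hδ.le
            exact mul_le_mul h3 h4 (by positivity) (by positivity)
    · intro i hi
      have h5 := hf i (Finset.mem_range.2 (by omega)) (ψΩ x) ⟨x, hx, rfl⟩
      rw [iteratedFDerivWithin_of_isOpen i Ω.isOpen (hm x.2),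
        SmoothFun.iteratedFDeriv_sub _ _ _ (hm x.2)]
      rw [dist_comm, dist_eq_norm] at h5
      exact h5.le
    · intro i hi1 hik
      refine le_trans (?_ : _ ≤ D) (le_self_pow₀ hD1 (by omega))
      have h6 := hD i (hik.trans hj) x ⟨x, hx, rfl⟩
      simpa using h6
  have hmul := norm_iteratedFDerivWithin_mul_le hw
    ((f - f₀ : SmoothFun 𝕜 Ω).contDiffOn.comp hψ hm) Ω.isOpen.uniqueDiffOn x.2 (hkt k)
  refine lt_of_le_of_lt hmul ?_
  have hsum : ∑ i ∈ Finset.range (k + 1), (k.choose i : ℝ) * ‖iteratedFDerivWithin ℝ i w Ω x‖ *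
      ‖iteratedFDerivWithin ℝ (k - i) ((f - f₀ : SmoothFun 𝕜 Ω) ∘ ψ) Ω x‖ ≤
      ∑ i ∈ Finset.range (k + 1), (k.choose i : ℝ) * (W * ((k ! * D ^ k) * (ε / (2 * B)))) := by
    apply Finset.sum_le_sum
    intro i hi
    rw [mul_assoc]
    apply mul_le_mul_of_nonneg_left _ (by positivity)
    have h7 : ‖iteratedFDerivWithin ℝ i w Ω x‖ ≤ W := by
      have := hW i (by have := Finset.mem_range.1 hi; omega) x ⟨x, hx, rfl⟩
      simpa using this
    exact mul_le_mul h7 (hcomp (k - i) (by omega)) (norm_nonneg _) (by positivity)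
  refine lt_of_le_of_lt hsum ?_
  rw [← Finset.sum_mul]
  have h8 : (∑ i ∈ Finset.range (k + 1), (k.choose i : ℝ)) = 2 ^ k := by
    exact_mod_cast Nat.sum_range_choose k
  rw [h8]
  have h9 : (2 : ℝ) ^ k * (W * ((k ! * D ^ k) * (ε / (2 * B)))) = B * (ε / (2 * B)) := by
    rw [hB]; ring
  rw [h9]
  have h10 : B * (ε / (2 * B)) = ε / 2 := by field_simp
  rw [h10]
  linarith

/-- The weighted composition operator `C_{w,ψ} f = w · (f ∘ ψ)` on `C^∞(Ω, 𝕜)`, for `w : Ω → 𝕜`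
and `ψ : Ω → Ω` smooth (only the values of `w` and `ψ` on `Ω` are used). -/
noncomputable def wco (w : E → 𝕜) (ψ : E → E)
    (hw : ContDiffOn ℝ ∞ w (Ω : Set E)) (hψ : ContDiffOn ℝ ∞ ψ (Ω : Set E))
    (hm : MapsTo ψ Ω Ω) : SmoothFun 𝕜 Ω →L[𝕜] SmoothFun 𝕜 Ω :=
  ⟨wcoLin w ψ hw hψ hm, continuous_wcoLin w ψ hw hψ hm⟩

/-- There are a nonempty open set `Ω ⊆ E`, a smooth `w : Ω → 𝕜` and a smooth `ψ : Ω → Ω` such that
the operator `C_{w,ψ}` is supercyclic but not chaotic on `C^∞(Ω, 𝕜)`. -/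
def ExistsSupercyclicNotChaotic (𝕜 : Type u) [RCLike 𝕜] (E : Type v) [NormedAddCommGroup E]
    [NormedSpace ℝ E] : Prop :=
  ∃ (Ω : Opens E) (w : E → 𝕜) (ψ : E → E)
    (hw : ContDiffOn ℝ ∞ w (Ω : Set E)) (hψ : ContDiffOn ℝ ∞ ψ (Ω : Set E)) (hm : MapsTo ψ Ω Ω),
    (Ω : Set E).Nonempty ∧ Supercyclic (wco w ψ hw hψ hm) ∧ ¬ Chaotic (wco w ψ hw hψ hm)

end Pool.Agent.MP_fcbc3e_an
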