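import Pool.Agent.MP_fcbc3e_an.TheMap

open Set Filter Topology TopologicalSpace
open scoped ContDiff Manifold Nat

namespace Pool.Agent.MP_fcbc3e_an

section Map

variable {d : ℕ} {i₀ i₁ i₂ : Fin d}

theorem abs_coord_le (x : Rd d) (i : Fin d) : |x i| ≤ ‖x‖ := by
  have := EuclideanSpace.norm_eq x
  have h1 : ‖x i‖ ≤ ‖x‖ := PiLp.norm_apply_le x i
  simpa using h1

theorem core_bound (R r C : ℝ) (n : ℕ) (hR0 : 1 ≤ R) (hr0 : 0 < r)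
    (_hC1 : 2 * R + 1 ≤ C) (hC2 : 4 * R ^ 2 / r ≤ C) (hC3 : |Real.logb 2 (3 * r / 4)| ≤ C)
    (hC4 : |Real.logb 2 (R ^ 2)| ≤ C) (hnC : C ≤ n) (a b A B : ℝ) (hA : A = 2 ^ n * a)
    (hB : B = b / 2 ^ n) (hAR : |A| ≤ R) (hbR : |b| ≤ R) (h1 : r ≤ a ^ 2 + b ^ 2)
    (h2 : r ≤ A ^ 2 + B ^ 2) :
    θ a b = 0 ∧ θ A B = 1 ∧ |(-Real.logb 2 (a * b)) - n| ≤ C := by
  have hpow : (0 : ℝ) < 2 ^ n := by positivity
  have hpow2 : 4 * R ^ 2 ≤ r * (2 ^ n) ^ 2 := by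
    have h1 : (n : ℝ) ≤ 2 ^ n := by
      exact_mod_cast Nat.lt_two_pow_self.le
    have h2 : (1 : ℝ) ≤ 2 ^ n := one_le_pow₀ (by norm_num)
    have h3 : 4 * R ^ 2 ≤ C * r := by
      rwa [div_le_iff₀ hr0] at hC2
    have h4 : C ≤ 2 ^ n := hnC.trans h1
    have h5 : (2 : ℝ) ^ n ≤ (2 ^ n) ^ 2 := by
      rw [sq]; exact le_mul_of_one_le_left hpow.le h2
    have h6 : C * r ≤ (2 ^ n) ^ 2 * r := mul_le_mul_of_nonneg_right (h4.trans h5) hr0.le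
    linarith
  have hAR2 : A ^ 2 ≤ R ^ 2 := sq_le_sq' (abs_le.1 hAR).1 (abs_le.1 hAR).2
  have hbR2 : b ^ 2 ≤ R ^ 2 := sq_le_sq' (abs_le.1 hbR).1 (abs_le.1 hbR).2
  have ha2 : 4 * a ^ 2 ≤ r := by
    have h2 : (2 ^ n) ^ 2 * (4 * a ^ 2) ≤ (2 ^ n) ^ 2 * r := by
      have : (2 ^ n) ^ 2 * (4 * a ^ 2) = 4 * A ^ 2 := by rw [hA]; ring
      rw [this]; linarith
    exact le_of_mul_le_mul_left h2 (by positivity)
  have hB2 : 4 * B ^ 2 ≤ r := by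
    have h3 : B * 2 ^ n = b := by rw [hB]; field_simp
    have h2 : (2 ^ n) ^ 2 * (4 * B ^ 2) ≤ (2 ^ n) ^ 2 * r := by
      have : (2 ^ n) ^ 2 * (4 * B ^ 2) = 4 * b ^ 2 := by rw [← h3]; ring
      rw [this]; linarith
    exact le_of_mul_le_mul_left h2 (by positivity)
  have hb2 : 3 * r / 4 ≤ b ^ 2 := by linarith
  have hA2 : 3 * r / 4 ≤ A ^ 2 := by linarith
  have hbne : b ≠ 0 := by
    rintro rfl
    have : (0 : ℝ) ^ 2 = 0 := by norm_num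
    rw [this] at hb2; linarith
  have hAne : A ≠ 0 := by
    intro h
    rw [h] at hA2
    have : (0 : ℝ) ^ 2 = 0 := by norm_num
    rw [this] at hA2; linarith
  refine ⟨θ_zero hbne (by linarith), θ_one hAne (by linarith), ?_⟩
  have h1 : a * b = (A * b) * (2 ^ n : ℝ)⁻¹ := by
    rw [hA]; field_simp
  have hne : A * b ≠ 0 := mul_ne_zero hAne hbne
  have h2 : Real.logb 2 (a * b) = Real.logb 2 (A * b) - n := by
    rw [h1, Real.logb_mul hne (by positivity), Real.logb_inv, Real.logb_pow,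
      Real.logb_self_eq_one (by norm_num)]
    ring
  rw [h2]
  have h3 : -(Real.logb 2 (A * b) - n) - n = -Real.logb 2 (A * b) := by ring
  rw [h3, abs_neg, ← Real.logb_abs (b := 2) (A * b)]
  have hpos : 0 < |A * b| := abs_pos.2 hne
  have h4 : 3 * r / 4 ≤ |A * b| := by
    have : (3 * r / 4) ^ 2 ≤ |A * b| ^ 2 := by
      rw [sq_abs, mul_pow, sq]
      exact mul_le_mul hA2 hb2 (by positivity) (by positivity)
    exact (sq_le_sq₀ (by positivity) (abs_nonneg _)).1 this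
  have h5 : |A * b| ≤ R ^ 2 := by
    rw [abs_mul, sq]
    exact mul_le_mul hAR hbR (abs_nonneg _) (by positivity)
  have h6 : Real.logb 2 (3 * r / 4) ≤ Real.logb 2 |A * b| :=
    Real.logb_le_logb_of_le (by norm_num) (by positivity) h4
  have h7 : Real.logb 2 |A * b| ≤ Real.logb 2 (R ^ 2) :=
    Real.logb_le_logb_of_le (by norm_num) hpos h5
  rw [abs_le]
  constructor
  · linarith [neg_abs_le (Real.logb 2 (3 * r / 4))]
  · linarith [le_abs_self (Real.logb 2 (R ^ 2))]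

theorem psi_runAway (h01 : i₀ ≠ i₁) (h02 : i₀ ≠ i₂) (h12 : i₁ ≠ i₂) :
    RunAway (Om i₀ i₁) (psi i₀ i₁ i₂) := by
  intro L hLΩ hLc
  -- bounds on `L`
  obtain ⟨R, hR0, hR⟩ : ∃ R : ℝ, 1 ≤ R ∧ ∀ x ∈ L, ‖x‖ ≤ R := by
    obtain ⟨R, hR⟩ := hLc.isBounded.exists_norm_le
    exact ⟨max R 1, le_max_right _ _, fun x hx => (hR x hx).trans (le_max_left _ _)⟩
  obtain ⟨r, hr0, hr⟩ : ∃ r : ℝ, 0 < r ∧ ∀ x ∈ L, r ≤ x i₀ ^ 2 + x i₁ ^ 2 := by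
    rcases L.eq_empty_or_nonempty with hL | hL
    · exact ⟨1, one_pos, by simp [hL]⟩
    · have hcont : ContinuousOn (fun x : Rd d => x i₀ ^ 2 + x i₁ ^ 2) L := by fun_prop
      obtain ⟨x, hx, hmin⟩ := hLc.exists_isMinOn hL hcont
      refine ⟨x i₀ ^ 2 + x i₁ ^ 2, ?_, fun y hy => hmin hy⟩
      rcases hLΩ hx with h | h <;> positivity
  -- choice of the time
  obtain ⟨C, hC1, hC2, hC3, hC4⟩ : ∃ C : ℝ, 2 * R + 1 ≤ C ∧ 4 * R ^ 2 / r ≤ C ∧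
      |Real.logb 2 (3 * r / 4)| ≤ C ∧ |Real.logb 2 (R ^ 2)| ≤ C :=
    ⟨max (max (2 * R + 1) (4 * R ^ 2 / r))
      (max (|Real.logb 2 (3 * r / 4)|) (|Real.logb 2 (R ^ 2)|)),
      (le_max_left _ _).trans (le_max_left _ _), (le_max_right _ _).trans (le_max_left _ _),
      (le_max_left _ _).trans (le_max_right _ _), (le_max_right _ _).trans (le_max_right _ _)⟩
  obtain ⟨n, hnC, hn⟩ := G_window C
  refine ⟨n, ?_⟩
  rw [Set.disjoint_left]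
  rintro _ ⟨x, hx, rfl⟩ hy
  obtain ⟨e0, e1, e2⟩ := psi_iter h01 h02 h12 n x
  generalize hydef : (psi i₀ i₁ i₂)^[n] x = y at *
  have hy0 : |y i₀| ≤ R := (abs_coord_le y i₀).trans (hR y hy)
  have hy2 : |y i₂| ≤ R := (abs_coord_le y i₂).trans (hR y hy)
  have hx1 : |x i₁| ≤ R := (abs_coord_le x i₁).trans (hR x hx)
  have hx2 : |x i₂| ≤ R := (abs_coord_le x i₂).trans (hR x hx)
  obtain ⟨hθ0, hθ1, hlog⟩ := core_bound R r C n hR0 hr0 hC1 hC2 hC3 hC4 hnC (x i₀) (x i₁)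
    (y i₀) (y i₁) e0 e1 hy0 hx1 (hr x hx) (hr y hy)
  rw [← e0, ← e1, hθ0, hθ1] at e2
  have hG := hn _ hlog
  have h8 : gg (x i₀ * x i₁) = y i₂ - x i₂ := by rw [e2]; ring
  have h9 : C ≤ |y i₂ - x i₂| := by rw [← h8]; exact hG
  have h10 : |y i₂ - x i₂| ≤ |y i₂| + |x i₂| := abs_sub _ _
  linarith

/-- The two special points. -/
noncomputable def PP (i₁ : Fin d) (a b : ℝ) (i₀ : Fin d) : Rd d :=
  WithLp.toLp 2 fun i => if i = i₀ then a else if i = i₁ then b else 0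

theorem PP_iter (h01 : i₀ ≠ i₁) (h02 : i₀ ≠ i₂) (h12 : i₁ ≠ i₂) (k : ℕ) :
    (psi i₀ i₁ i₂)^[k !] (PP i₁ ((2 ^ (k !))⁻¹) 1 i₀) = PP i₁ 1 ((2 ^ (k !))⁻¹) i₀ := by
  obtain ⟨e0, e1, e2⟩ := psi_iter h01 h02 h12 (k !) (PP i₁ ((2 ^ (k !))⁻¹) 1 i₀)
  have hgg : gg ((2 ^ (k !) : ℝ)⁻¹ * 1) = 0 := by
    rw [mul_one, gg, Real.logb_inv, Real.logb_pow, Real.logb_self_eq_one (by norm_num), neg_neg,
      mul_one]
    exact G_factorial k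
  ext i
  by_cases h0 : i = i₀
  · subst h0
    rw [e0]; simp [PP]
  by_cases h1 : i = i₁
  · subst h1
    rw [e1]; simp [PP, h01.symm]
  by_cases h2 : i = i₂
  · subst h2
    rw [e2]
    simp only [PP, h0, h1, if_false, if_true, h01.symm]
    rw [hgg]; simp
  · rw [psi_iter_other h0 h1 h2]
    simp [PP, h0, h1]

theorem PP_tendsto {a b : ℕ → ℝ} {a' b' : ℝ} (ha : Tendsto a atTop (𝓝 a'))
    (hb : Tendsto b atTop (𝓝 b')) :
    Tendsto (fun k => PP i₁ (a k) (b k) i₀) atTop (𝓝 (PP i₁ a' b' i₀)) := by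
  have hc : Continuous (fun p : ℝ × ℝ => PP i₁ p.1 p.2 i₀) := by
    apply (PiLp.continuous_toLp 2 _).comp
    refine continuous_pi fun i => ?_
    split_ifs <;> fun_prop
  exact (hc.tendsto (a', b')).comp (ha.prodMk_nhds hb)

theorem tendsto_pow_factorial : Tendsto (fun k : ℕ => ((2 : ℝ) ^ (k !))⁻¹) atTop (𝓝 0) := by
  have h1 : Tendsto (fun n : ℕ => ((2 : ℝ) ^ n)⁻¹) atTop (𝓝 0) :=
    tendsto_inv_atTop_zero.comp (tendsto_pow_atTop_atTop_of_one_lt (by norm_num))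
  have h2 : Tendsto (fun k : ℕ => k !) atTop atTop := factorial_tendsto_atTop
  exact h1.comp h2

variable {𝕜 : Type*} [RCLike 𝕜]

theorem periodic_eval_eq (h01 : i₀ ≠ i₁) (h02 : i₀ ≠ i₂) (h12 : i₁ ≠ i₂)
    (hw : ContDiffOn ℝ ∞ (fun _ => (1 : 𝕜)) (Om i₀ i₁ : Set (Rd d)))
    (f : SmoothFun 𝕜 (Om i₀ i₁)) (p : ℕ) (hp : 1 ≤ p)
    (hf : (wco (fun _ => (1 : 𝕜)) (psi i₀ i₁ i₂) hw psi_contDiffOn (psi_maps h01) ^ p) f = f) :
    f (PP i₁ 0 1 i₀) = f (PP i₁ 1 0 i₀) := by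
  have hmem0 : ∀ a : ℝ, PP i₁ a 1 i₀ ∈ Om i₀ i₁ := by
    intro a; right; simp [PP, h01.symm]
  have hmem1 : ∀ b : ℝ, PP i₁ 1 b i₀ ∈ Om i₀ i₁ := by
    intro b; left; simp [PP]
  have hmul : ∀ m : ℕ, (wco (fun _ => (1 : 𝕜)) (psi i₀ i₁ i₂) hw psi_contDiffOn
      (psi_maps h01) ^ (p * m)) f = f := by
    intro m
    induction m with
    | zero => simp
    | succ m ih =>
      rw [mul_add, mul_one, pow_add, mul_apply_eq_comp, hf, ih]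
  have hk : ∀ k : ℕ, p ≤ k →
      f (PP i₁ ((2 ^ (k !))⁻¹) 1 i₀) = f (PP i₁ 1 ((2 ^ (k !))⁻¹) i₀) := by
    intro k hk
    obtain ⟨m, hm⟩ := Nat.dvd_factorial hp hk
    have h1 := wco_one_pow_apply (𝕜 := 𝕜) (hw := hw) (ψ := psi i₀ i₁ i₂)
      (hψ := psi_contDiffOn) (hm := psi_maps h01) (k !) f (hmem0 ((2 ^ (k !))⁻¹))
    rw [PP_iter h01 h02 h12 k, hm, hmul m, ← hm] at h1
    exact h1
  have hcf : ContinuousOn (f : Rd d → 𝕜) (Om i₀ i₁ : Set (Rd d)) := f.contDiffOn.continuousOn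
  have hc0 : ContinuousAt (f : Rd d → 𝕜) (PP i₁ 0 1 i₀) :=
    hcf.continuousAt ((Om i₀ i₁).isOpen.mem_nhds (hmem0 0))
  have hc1 : ContinuousAt (f : Rd d → 𝕜) (PP i₁ 1 0 i₀) :=
    hcf.continuousAt ((Om i₀ i₁).isOpen.mem_nhds (hmem1 0))
  have t0 : Tendsto (fun k : ℕ => f (PP i₁ ((2 ^ (k !))⁻¹) 1 i₀)) atTop
      (𝓝 (f (PP i₁ 0 1 i₀))) :=
    hc0.tendsto.comp (PP_tendsto tendsto_pow_factorial tendsto_const_nhds)
  have t1 : Tendsto (fun k : ℕ => f (PP i₁ 1 ((2 ^ (k !))⁻¹) i₀)) atTop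
      (𝓝 (f (PP i₁ 1 0 i₀))) :=
    hc1.tendsto.comp (PP_tendsto tendsto_const_nhds tendsto_pow_factorial)
  refine tendsto_nhds_unique (t0.congr' ?_) t1
  filter_upwards [eventually_ge_atTop p] with k hk' using hk k hk'

open Classical in
theorem exists_separating (h01 : i₀ ≠ i₁) :
    ∃ f : SmoothFun 𝕜 (Om i₀ i₁), f (PP i₁ 0 1 i₀) ≠ f (PP i₁ 1 0 i₀) := by
  refine ⟨⟨fun x => if x ∈ Om i₀ i₁ then ((x i₀ : ℝ) : 𝕜) else 0, ?_, ?_⟩, ?_⟩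
  · have h1 : ContDiff ℝ ∞ (fun x : Rd d => ((x i₀ : ℝ) : 𝕜)) :=
      (RCLike.ofRealCLM (K := 𝕜)).contDiff.comp (coord_contDiff i₀)
    exact h1.contDiffOn.congr fun x hx => by simp [SetLike.mem_coe.1 hx]
  · intro x hx; simp [hx]
  · have h0 : PP i₁ 0 1 i₀ ∈ Om i₀ i₁ := by right; simp [PP, h01.symm]
    have h1 : PP i₁ 1 0 i₀ ∈ Om i₀ i₁ := by left; simp [PP]
    show (if PP i₁ 0 1 i₀ ∈ Om i₀ i₁ then (((PP i₁ 0 1 i₀) i₀ : ℝ) : 𝕜) else 0) ≠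
      (if PP i₁ 1 0 i₀ ∈ Om i₀ i₁ then (((PP i₁ 1 0 i₀) i₀ : ℝ) : 𝕜) else 0)
    rw [if_pos h0, if_pos h1]
    simp [PP]

end Map

end Pool.Agent.MP_fcbc3e_an
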