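import Pool.Agent.MP_fcbc3e_an.Defs

open Set Filter Topology TopologicalSpace
open scoped ContDiff Manifold

namespace Pool.Agent.MP_fcbc3e_an

universe u v

variable {𝕜 : Type u} [RCLike 𝕜] {E : Type v} [NormedAddCommGroup E] [NormedSpace ℝ E]
  [FiniteDimensional ℝ E] {Ω : Opens E}

instance finiteDimensional_multilinear (k : ℕ) : FiniteDimensional ℝ (E [×k]→L[ℝ] 𝕜) := by
  let φ : (E [×k]→L[ℝ] 𝕜) →ₗ[ℝ] MultilinearMap ℝ (fun _ : Fin k => E) 𝕜 :=
    { toFun := fun f => f.toMultilinearMap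
      map_add' := fun _ _ => rfl
      map_smul' := fun _ _ => rfl }
  have : FiniteDimensional ℝ (MultilinearMap ℝ (fun _ : Fin k => E) 𝕜) :=
    Module.Finite.multilinearMap
  exact FiniteDimensional.of_injective φ (fun f g h => by
    apply ContinuousMultilinearMap.toMultilinearMap_injective h)

instance SmoothFun.secondCountableTopology : SecondCountableTopology (SmoothFun 𝕜 Ω) := by
  apply (config := { allowSynthFailures := true }) secondCountableTopology_iInf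
  intro k
  have : ProperSpace E := FiniteDimensional.proper_real E
  have : ProperSpace (E [×k]→L[ℝ] 𝕜) := FiniteDimensional.proper_real _
  have : SecondCountableTopology (E [×k]→L[ℝ] 𝕜) := inferInstance
  have : LocallyCompactSpace Ω := Ω.isOpen.locallyCompactSpace
  have : SecondCountableTopology C(Ω, E [×k]→L[ℝ] 𝕜) := inferInstance
  exact secondCountableTopology_induced _ _ _

omit [FiniteDimensional ℝ E] in
/-- point evaluation at `x ∈ Ω` is continuous -/
theorem SmoothFun.continuous_eval {x : E} (hx : x ∈ Ω) :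
    Continuous (fun f : SmoothFun 𝕜 Ω => f x) := by
  have h1 : Continuous (fun f : SmoothFun 𝕜 Ω => SmoothFun.deriv 0 f ⟨x, hx⟩) :=
    (continuous_eval_const (⟨x, hx⟩ : Ω)).comp (SmoothFun.continuous_deriv 0)
  have h2 := (ContinuousMultilinearMap.apply ℝ (fun _ : Fin 0 => E) 𝕜 0).continuous.comp h1
  refine h2.congr fun f => ?_
  show iteratedFDeriv ℝ 0 (f : E → 𝕜) x 0 = f x
  rw [iteratedFDeriv_zero_apply]

omit [FiniteDimensional ℝ E] in
theorem wco_apply {w : E → 𝕜} {ψ : E → E}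
    {hw : ContDiffOn ℝ ∞ w (Ω : Set E)} {hψ : ContDiffOn ℝ ∞ ψ (Ω : Set E)}
    {hm : MapsTo ψ Ω Ω} (f : SmoothFun 𝕜 Ω) {x : E} (hx : x ∈ Ω) :
    (wco w ψ hw hψ hm f) x = w x * f (ψ x) :=
  wcoLin_apply (hw := hw) (hψ := hψ) (hm := hm) f hx

omit [FiniteDimensional ℝ E] in
theorem wco_one_pow_apply {ψ : E → E}
    {hw : ContDiffOn ℝ ∞ (fun _ => (1 : 𝕜)) (Ω : Set E)}
    {hψ : ContDiffOn ℝ ∞ ψ (Ω : Set E)}
    {hm : MapsTo ψ Ω Ω} (n : ℕ) (f : SmoothFun 𝕜 Ω) {x : E} (hx : x ∈ Ω) :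
    ((wco (fun _ => (1 : 𝕜)) ψ hw hψ hm ^ n) f) x = f (ψ^[n] x) := by
  induction n generalizing x with
  | zero => simp
  | succ n ih =>
    rw [pow_succ', mul_apply_eq_comp, wco_apply _ hx, one_mul, ih (hm hx),
      Function.iterate_succ_apply]

omit [FiniteDimensional ℝ E] in
theorem iterate_contDiffOn {ψ : E → E} (hψ : ContDiffOn ℝ ∞ ψ (Ω : Set E))
    (hm : MapsTo ψ Ω Ω) (n : ℕ) : ContDiffOn ℝ ∞ (ψ^[n]) (Ω : Set E) := by
  induction n with
  | zero => exact contDiffOn_id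
  | succ n ih =>
    rw [Function.iterate_succ]
    exact ih.comp hψ hm

omit [NormedSpace ℝ E] [FiniteDimensional ℝ E] in
theorem iterate_left_inv {ψ ψ' : E → E} (hm : MapsTo ψ Ω Ω)
    (hl : ∀ x ∈ Ω, ψ' (ψ x) = x) (n : ℕ) : ∀ x ∈ Ω, ψ'^[n] (ψ^[n] x) = x := by
  induction n with
  | zero => intro x _; rfl
  | succ n ih =>
    intro x hx
    rw [Function.iterate_succ_apply' (f := ψ), Function.iterate_succ_apply,
      hl _ (hm.iterate n hx), ih x hx]

/-- A map is run-away on `Ω` if each compact subset of `Ω` is eventually once disjoint from its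
image. -/
def RunAway (Ω : Opens E) (ψ : E → E) : Prop :=
  ∀ L : Set E, L ⊆ Ω → IsCompact L → ∃ n : ℕ, Disjoint (ψ^[n] '' L) L

theorem exists_dense_orbit {ψ ψ' : E → E}
    (hw : ContDiffOn ℝ ∞ (fun _ => (1 : 𝕜)) (Ω : Set E))
    (hψ : ContDiffOn ℝ ∞ ψ (Ω : Set E)) (hψ' : ContDiffOn ℝ ∞ ψ' (Ω : Set E))
    (hm : MapsTo ψ Ω Ω) (hm' : MapsTo ψ' Ω Ω) (hl : ∀ x ∈ Ω, ψ' (ψ x) = x)
    (hr : ∀ x ∈ Ω, ψ (ψ' x) = x) (hrun : RunAway Ω ψ) :
    ∃ g : SmoothFun 𝕜 Ω,
      Dense {h : SmoothFun 𝕜 Ω | ∃ n : ℕ, h = (wco (fun _ => (1 : 𝕜)) ψ hw hψ hm ^ n) g} := by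
  classical
  have : ProperSpace E := FiniteDimensional.proper_real E
  have : LocallyCompactSpace Ω := Ω.isOpen.locallyCompactSpace
  -- compact exhaustion
  let K₀ : CompactExhaustion Ω := CompactExhaustion.choice Ω
  let K : ℕ → Set E := fun j => Subtype.val '' (K₀ j)
  have hKc : ∀ j, IsCompact (K j) := fun j => (K₀.isCompact j).image continuous_subtype_val
  have hKΩ : ∀ j, K j ⊆ Ω := by
    rintro j _ ⟨x, _, rfl⟩; exact x.2
  have hKint : ∀ j, K j ⊆ interior (K (j + 1)) := by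
    intro j
    have h1 : IsOpen (Subtype.val '' (interior (K₀ (j + 1))) : Set E) :=
      Ω.isOpen.isOpenMap_subtype_val _ isOpen_interior
    refine (image_mono (K₀.subset_interior_succ j)).trans ?_
    exact interior_maximal (image_mono interior_subset) h1
  have hKnhds : ∀ x ∈ Ω, ∃ j, K j ∈ 𝓝 x := by
    intro x hx
    obtain ⟨j, hj⟩ := K₀.exists_mem ⟨x, hx⟩
    exact ⟨j + 1, mem_interior_iff_mem_nhds.1 (hKint j ⟨⟨x, hx⟩, hj, rfl⟩)⟩
  have hKmono : Monotone K := monotone_nat_of_le_succ fun j => (hKint j).trans interior_subset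
  -- times
  choose! τ hτ using hrun
  -- the compact sets M_j
  let M : ℕ → Set E := fun j => Nat.rec (K 1)
    (fun j M => M ∪ ψ^[τ M] '' M ∪ K (j + 2)) j
  have hM0 : M 0 = K 1 := rfl
  have hMs : ∀ j, M (j + 1) = M j ∪ ψ^[τ (M j)] '' (M j) ∪ K (j + 2) := fun j => rfl
  have hMΩ : ∀ j, M j ⊆ Ω := by
    intro j
    induction j with
    | zero => rw [hM0]; exact hKΩ 1
    | succ j ih =>
      rw [hMs]
      refine union_subset (union_subset ih ?_) (hKΩ _)
      rintro _ ⟨x, hx, rfl⟩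
      exact hm.iterate _ (ih hx)
  have hMc : ∀ j, IsCompact (M j) := by
    intro j
    induction j with
    | zero => rw [hM0]; exact hKc 1
    | succ j ih =>
      rw [hMs]
      refine (ih.union (ih.image_of_continuousOn ?_)).union (hKc _)
      exact (iterate_contDiffOn hψ hm _).continuousOn.mono (hMΩ j)
  have hMmono : Monotone M := monotone_nat_of_le_succ fun j => by
    rw [hMs]; exact subset_union_left.trans subset_union_left
  have hKM : ∀ j, K (j + 1) ⊆ M j := by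
    intro j
    cases j with
    | zero => exact hM0.ge
    | succ j => rw [hMs]; exact subset_union_right
  let t : ℕ → ℕ := fun j => τ (M j)
  let S : ℕ → Set E := fun j => ψ^[t j] '' (M j)
  have hSM : ∀ j, Disjoint (S j) (M j) := fun j => hτ (M j) (hMΩ j) (hMc j)
  have hSM' : ∀ j, S j ⊆ M (j + 1) := fun j => by
    rw [hMs]; exact subset_union_right.trans subset_union_left
  have hSS : ∀ i j, i < j → Disjoint (S i) (S j) := by
    intro i j hij
    exact ((hSM j).mono_right ((hSM' i).trans (hMmono hij))).symm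
  -- dense sequence
  let D : ℕ → SmoothFun 𝕜 Ω := fun j => denseSeq (SmoothFun 𝕜 Ω) (Nat.unpair j).1
  -- cutoffs
  have hcut : ∀ j, ∃ χ : E → ℝ, ContDiff ℝ ∞ χ ∧ (∀ᶠ x in 𝓝ˢ (K j), χ x = 1) ∧
      ∀ x ∉ K (j + 1), χ x = 0 := by
    intro j
    obtain ⟨f, hf1, hf2, _⟩ := exists_contMDiffMap_one_nhds_of_subset_interior (n := ⊤)
      (𝓘(ℝ, E)) (hKc j).isClosed (hKint j)
    exact ⟨f, f.contMDiff.contDiff, hf1, hf2⟩
  choose χ hχs hχ1 hχ0 using hcut
  let h : ℕ → E → 𝕜 := fun j x => (χ j x : 𝕜) * D j x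
  have hhs : ∀ j, ContDiffOn ℝ ∞ (h j) (Ω : Set E) := by
    intro j
    have h1 : ContDiff ℝ ∞ (fun x => (χ j x : 𝕜)) :=
      (RCLike.ofRealCLM (K := 𝕜)).contDiff.comp (hχs j)
    exact h1.contDiffOn.mul (D j).contDiffOn
  have hh0 : ∀ j, ∀ x ∉ K (j + 1), h j x = 0 := by
    intro j x hx
    simp [h, hχ0 j x hx]
  have hh1 : ∀ j, ∀ᶠ x in 𝓝ˢ (K j), h j x = D j x := by
    intro j
    filter_upwards [hχ1 j] with x hx
    simp [h, hx]
  let term : ℕ → E → 𝕜 := fun j y => if y ∈ Ω then h j (ψ'^[t j] y) else 0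
  have hterm_s : ∀ j, ContDiffOn ℝ ∞ (term j) (Ω : Set E) := by
    intro j
    have h1 : ContDiffOn ℝ ∞ (fun y => h j (ψ'^[t j] y)) (Ω : Set E) :=
      (hhs j).comp (iterate_contDiffOn hψ' hm' _) (hm'.iterate _)
    exact h1.congr fun y hy => by simp [term, SetLike.mem_coe.1 hy]
  have hterm_S : ∀ j y, term j y ≠ 0 → y ∈ S j := by
    intro j y hy
    have hyΩ : y ∈ Ω := by
      by_contra hcon
      exact hy (by simp [term, hcon])
    have h2 : ψ'^[t j] y ∈ K (j + 1) := by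
      by_contra hcon
      exact hy (by simp only [term, hyΩ, if_true]; exact hh0 j _ hcon)
    exact ⟨ψ'^[t j] y, hKM j h2, iterate_left_inv hm' hr _ y hyΩ⟩
  have hterm_zero : ∀ N, ∀ y ∈ M N, ∀ j, N ≤ j → term j y = 0 := by
    intro N y hy j hj
    by_contra hcon
    exact (disjoint_left.1 (hSM j) (hterm_S j y hcon)) (hMmono hj hy)
  let g₀ : E → 𝕜 := fun y => ∑ᶠ j, term j y
  have hg₀ : ∀ N, ∀ y ∈ M N, g₀ y = ∑ j ∈ Finset.range N, term j y := by
    intro N y hy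
    apply finsum_eq_sum_of_support_subset
    intro j hj
    simp only [Finset.coe_range, mem_Iio]
    by_contra hcon
    exact hj (hterm_zero N y hy j (not_lt.1 hcon))
  have hg₀s : ContDiffOn ℝ ∞ g₀ (Ω : Set E) := by
    intro x hx
    obtain ⟨N, hN⟩ := hKnhds x hx
    have h1 : M N ∈ 𝓝 x := mem_of_superset hN ((hKmono (Nat.le_succ N)).trans (hKM N))
    have h2 : g₀ =ᶠ[𝓝 x] fun y => ∑ j ∈ Finset.range N, term j y := by
      filter_upwards [h1] with y hy using hg₀ N y hy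
    have h3 : ContDiffAt ℝ ∞ (fun y => ∑ j ∈ Finset.range N, term j y) x :=
      ContDiffAt.sum fun j _ => (hterm_s j).contDiffAt (Ω.isOpen.mem_nhds hx)
    exact (h3.congr_of_eventuallyEq h2).contDiffWithinAt
  have hg₀z : ∀ x ∉ Ω, g₀ x = 0 := by
    intro x hx
    simp [g₀, term, hx]
  let g : SmoothFun 𝕜 Ω := ⟨g₀, hg₀s, hg₀z⟩
  refine ⟨g, ?_⟩
  set T := wco (fun _ => (1 : 𝕜)) ψ hw hψ hm with hT
  have hkey : ∀ j, ∀ᶠ x in 𝓝ˢ (K j), ((T ^ (t j)) g) x = D j x := by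
    intro j
    have h1 : ∀ᶠ x in 𝓝ˢ (K j), x ∈ K (j + 1) := by
      filter_upwards [isOpen_interior.mem_nhdsSet.2 (hKint j)] with x hx using interior_subset hx
    filter_upwards [h1, hh1 j] with x hx1 hx2
    have hxΩ : x ∈ Ω := hKΩ _ hx1
    rw [hT, wco_one_pow_apply _ _ hxΩ]
    have hyS : ψ^[t j] x ∈ S j := ⟨x, hKM j hx1, rfl⟩
    have hyΩ : ψ^[t j] x ∈ Ω := hm.iterate _ hxΩ
    show g₀ (ψ^[t j] x) = _
    have h3 : g₀ (ψ^[t j] x) = term j (ψ^[t j] x) := by
      apply finsum_eq_single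
      intro i hij
      by_contra hcon
      have h4 := hterm_S i _ hcon
      rcases lt_or_gt_of_ne hij with h5 | h5
      · exact disjoint_left.1 (hSS i j h5) h4 hyS
      · exact disjoint_left.1 (hSS j i h5) hyS h4
    rw [h3]
    simp only [term, hyΩ, if_true]
    rw [iterate_left_inv hm hl _ x hxΩ, hx2]
  -- density
  have hcl : ∀ m, denseSeq (SmoothFun 𝕜 Ω) m ∈
      closure {h : SmoothFun 𝕜 Ω | ∃ n : ℕ, h = (T ^ n) g} := by
    intro m
    refine mem_closure_of_tendsto (b := atTop)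
      (f := fun i : ℕ => (T ^ (t (Nat.pair m i))) g) ?_ (Eventually.of_forall fun i => ⟨_, rfl⟩)
    rw [SmoothFun.tendsto_iff]
    intro k
    rw [ContinuousMap.tendsto_iff_forall_isCompact_tendstoUniformlyOn]
    intro L hL
    obtain ⟨N, hN⟩ := K₀.exists_superset_of_isCompact hL
    intro u hu
    filter_upwards [eventually_ge_atTop N] with i hi
    intro x hx
    have h1 : (x : E) ∈ K (Nat.pair m i) :=
      hKmono (hi.trans (Nat.right_le_pair m i)) ⟨x, hN hx, rfl⟩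
    have h2 : (((T ^ (t (Nat.pair m i))) g : SmoothFun 𝕜 Ω) : E → 𝕜) =ᶠ[𝓝 (x : E)]
        (D (Nat.pair m i) : E → 𝕜) :=
      (hkey (Nat.pair m i)).filter_mono (nhds_le_nhdsSet h1)
    have h3 : D (Nat.pair m i) = denseSeq (SmoothFun 𝕜 Ω) m := by
      simp [D]
    have h4 : SmoothFun.deriv k ((T ^ (t (Nat.pair m i))) g) x =
        SmoothFun.deriv k (denseSeq (SmoothFun 𝕜 Ω) m) x := by
      show iteratedFDeriv ℝ k _ (x : E) = iteratedFDeriv ℝ k _ (x : E)
      rw [← h3]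
      exact (h2.iteratedFDeriv ℝ k).self_of_nhds
    show (_, _) ∈ u
    rw [h4]
    exact refl_mem_uniformity hu
  intro f
  have hd := denseRange_denseSeq (SmoothFun 𝕜 Ω) f
  refine closure_minimal ?_ isClosed_closure hd
  rintro _ ⟨m, rfl⟩
  exact hcl m

end Pool.Agent.MP_fcbc3e_an
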