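import Pool.Agent.MP_fcbc3e_an.Operator

open Set Filter Topology TopologicalSpace
open scoped ContDiff Manifold Nat

namespace Pool.Agent.MP_fcbc3e_an

/-- Euclidean space `ℝ^d`. -/
abbrev Rd (d : ℕ) : Type := EuclideanSpace ℝ (Fin d)

/-- A smooth function on `ℝ` vanishing at all factorials but large on arbitrarily long windows. -/
theorem exists_G : ∃ G : ℝ → ℝ, ContDiff ℝ ∞ G ∧ (∀ k : ℕ, G (k ! : ℕ) = 0) ∧
    ∀ C : ℝ, ∃ n : ℕ, C ≤ n ∧ ∀ t : ℝ, |t - n| ≤ C → C ≤ |G t| := by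
  let s : Set ℝ := Nat.cast '' (range fun k : ℕ => k !)
  let u : Set ℝ := ⋂ k : ℕ, {t : ℝ | 1 ≤ |t - (k ! : ℕ)|}
  have hs : IsClosed s := Nat.isClosedEmbedding_coe_real.isClosedMap _ (isClosed_discrete _)
  have hu : IsClosed u := by
    apply isClosed_iInter
    intro k
    exact isClosed_le continuous_const (by fun_prop)
  have hd : Disjoint s u := by
    rw [Set.disjoint_left]
    rintro _ ⟨_, ⟨k, rfl⟩, rfl⟩ ht
    have h1 := mem_iInter.1 ht k
    simp at h1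
    linarith
  obtain ⟨χ, hχ0, hχ1, _⟩ := exists_contMDiffMap_zero_one_of_isClosed (n := ⊤) 𝓘(ℝ, ℝ) hs hu hd
  refine ⟨fun t => t * χ t, contDiff_id.mul χ.contMDiff.contDiff, ?_, ?_⟩
  · intro k
    have h1 : χ ((k ! : ℕ) : ℝ) = 0 := hχ0 ⟨k !, ⟨k, rfl⟩, rfl⟩
    simp [h1]
  · intro C
    obtain ⟨c, hc⟩ := exists_nat_ge C
    refine ⟨(2 * c + 3)! + c + 1, ?_, ?_⟩
    · push_cast
      have : (0 : ℝ) ≤ (((2 * c + 3)! : ℕ) : ℝ) := Nat.cast_nonneg _
      linarith
    · intro t ht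
      set k := 2 * c + 3 with hk
      rw [abs_le] at ht
      push_cast at ht
      have hlow : ((k ! : ℕ) : ℝ) + 1 ≤ t := by linarith [ht.1]
      have hupp : t ≤ ((k ! : ℕ) : ℝ) + 2 * c + 1 := by linarith [ht.2]
      have htu : t ∈ u := by
        rw [mem_iInter]
        intro j
        show (1 : ℝ) ≤ |t - ((j ! : ℕ) : ℝ)|
        rcases Nat.lt_or_ge k j with hj | hj
        · have h1 : (k + 1)! ≤ j ! := Nat.factorial_le hj
          have h2 : (k + 1)! = k * k ! + k ! := by rw [Nat.factorial_succ]; ring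
          have h3 : 1 ≤ k ! := Nat.factorial_pos k
          have h4 : k ! + k ≤ j ! := by nlinarith
          have h5 : ((k ! : ℕ) : ℝ) + (k : ℝ) ≤ ((j ! : ℕ) : ℝ) := by exact_mod_cast h4
          have h6 : (k : ℝ) = 2 * c + 3 := by rw [hk]; push_cast; ring
          rw [abs_sub_comm]
          refine le_trans ?_ (le_abs_self _)
          linarith
        · have h1 : j ! ≤ k ! := Nat.factorial_le hj
          have h2 : ((j ! : ℕ) : ℝ) ≤ ((k ! : ℕ) : ℝ) := by exact_mod_cast h1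
          refine le_trans ?_ (le_abs_self _)
          linarith
      have h1 : χ t = 1 := hχ1 htu
      show C ≤ |t * χ t|
      rw [h1, mul_one]
      refine le_trans ?_ (le_abs_self _)
      have h3 : k ≤ k ! := Nat.self_le_factorial k
      have h4 : (k : ℝ) ≤ ((k ! : ℕ) : ℝ) := by exact_mod_cast h3
      have h6 : (k : ℝ) = 2 * c + 3 := by rw [hk]; push_cast; ring
      have h7 : (0 : ℝ) ≤ c := Nat.cast_nonneg c
      linarith

/-- the function `G` of `exists_G` -/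
noncomputable def G : ℝ → ℝ := exists_G.choose

theorem G_contDiff : ContDiff ℝ ∞ G := exists_G.choose_spec.1
theorem G_factorial (k : ℕ) : G (k ! : ℕ) = 0 := exists_G.choose_spec.2.1 k
theorem G_window (C : ℝ) : ∃ n : ℕ, C ≤ n ∧ ∀ t : ℝ, |t - n| ≤ C → C ≤ |G t| :=
  exists_G.choose_spec.2.2 C

/-- `g(s) = G(-log₂ |s|)` -/
noncomputable def gg (s : ℝ) : ℝ := G (-Real.logb 2 s)

/-- smooth cutoff on the plane minus the origin: `1` near the first axis, `0` near the second -/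
noncomputable def θ (a b : ℝ) : ℝ :=
  Real.smoothTransition ((a ^ 2 - b ^ 2) / (a ^ 2 + b ^ 2) + 1 / 2)

/-- the shift function -/
noncomputable def shf (a b : ℝ) : ℝ := gg (a * b) * (θ (2 * a) (b / 2) - θ a b)

theorem θ_one {a b : ℝ} (ha : a ≠ 0) (h : 3 * b ^ 2 ≤ a ^ 2) : θ a b = 1 := by
  apply Real.smoothTransition.one_of_one_le
  have h1 : 0 < a ^ 2 + b ^ 2 := by positivity
  have h2 : 1 / 2 ≤ (a ^ 2 - b ^ 2) / (a ^ 2 + b ^ 2) := by
    rw [le_div_iff₀ h1]; linarith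
  linarith

theorem θ_zero {a b : ℝ} (hb : b ≠ 0) (h : 3 * a ^ 2 ≤ b ^ 2) : θ a b = 0 := by
  apply Real.smoothTransition.zero_of_nonpos
  have h1 : 0 < a ^ 2 + b ^ 2 := by positivity
  have h2 : (a ^ 2 - b ^ 2) / (a ^ 2 + b ^ 2) ≤ -(1 / 2) := by
    rw [div_le_iff₀ h1]; linarith
  linarith

theorem gg_contDiffAt {s : ℝ} (hs : s ≠ 0) : ContDiffAt ℝ ∞ gg s := by
  have h1 : ContDiffAt ℝ ∞ (fun s => -(Real.log s / Real.log 2)) s :=
    ((Real.contDiffAt_log.2 hs).div_const _).neg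
  exact (G_contDiff.contDiffAt).comp s h1

theorem θ_contDiffAt {p : ℝ × ℝ} (hp : p.1 ≠ 0 ∨ p.2 ≠ 0) :
    ContDiffAt ℝ ∞ (fun q : ℝ × ℝ => θ q.1 q.2) p := by
  have hne : p.1 ^ 2 + p.2 ^ 2 ≠ 0 := by
    rcases hp with h | h <;> positivity
  have h1 : ContDiffAt ℝ ∞
      (fun q : ℝ × ℝ => (q.1 ^ 2 - q.2 ^ 2) / (q.1 ^ 2 + q.2 ^ 2) + 1 / 2) p := by
    refine ContDiffAt.add (ContDiffAt.div ?_ ?_ hne) contDiffAt_const
    · exact (contDiffAt_fst.pow 2).sub (contDiffAt_snd.pow 2)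
    · exact (contDiffAt_fst.pow 2).add (contDiffAt_snd.pow 2)
  exact (Real.smoothTransition.contDiffAt).comp p h1

theorem shf_contDiffAt {p : ℝ × ℝ} (hp : p.1 ≠ 0 ∨ p.2 ≠ 0) :
    ContDiffAt ℝ ∞ (fun q : ℝ × ℝ => shf q.1 q.2) p := by
  by_cases h1 : p.1 = 0
  · have h2 : p.2 ≠ 0 := by
      rcases hp with h | h
      · exact absurd h1 h
      · exact h
    -- locally zero
    have h3 : ∀ᶠ q : ℝ × ℝ in 𝓝 p, 12 * (2 * q.1) ^ 2 < q.2 ^ 2 ∧ q.2 ≠ 0 := by
      apply Filter.Eventually.and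
      · apply ContinuousAt.eventually_lt (by fun_prop) (by fun_prop)
        rw [h1]
        have : 0 < p.2 ^ 2 := by positivity
        simpa using this
      · exact (continuous_snd.continuousAt).eventually_ne h2
    have h4 : (fun q : ℝ × ℝ => shf q.1 q.2) =ᶠ[𝓝 p] fun _ => 0 := by
      filter_upwards [h3] with q hq
      have h5 : θ q.1 q.2 = 0 := θ_zero hq.2 (by nlinarith [hq.1, sq_nonneg q.1])
      have h6 : θ (2 * q.1) (q.2 / 2) = 0 :=
        θ_zero (by have := hq.2; positivity) (by nlinarith [hq.1, sq_nonneg q.1])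
      simp [shf, h5, h6]
    exact contDiffAt_const.congr_of_eventuallyEq h4
  · by_cases h2 : p.2 = 0
    · have h3 : ∀ᶠ q : ℝ × ℝ in 𝓝 p, 12 * q.2 ^ 2 < q.1 ^ 2 ∧ q.1 ≠ 0 := by
        apply Filter.Eventually.and
        · apply ContinuousAt.eventually_lt (by fun_prop) (by fun_prop)
          rw [h2]
          have : 0 < p.1 ^ 2 := by positivity
          simpa using this
        · exact (continuous_fst.continuousAt).eventually_ne h1
      have h4 : (fun q : ℝ × ℝ => shf q.1 q.2) =ᶠ[𝓝 p] fun _ => 0 := by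
        filter_upwards [h3] with q hq
        have h5 : θ q.1 q.2 = 1 := θ_one hq.2 (by nlinarith [hq.1, sq_nonneg q.2])
        have h6 : θ (2 * q.1) (q.2 / 2) = 1 :=
          θ_one (by have := hq.2; positivity) (by nlinarith [hq.1, sq_nonneg q.2])
        simp [shf, h5, h6]
      exact contDiffAt_const.congr_of_eventuallyEq h4
    · have hg : ContDiffAt ℝ ∞ (fun q : ℝ × ℝ => gg (q.1 * q.2)) p := by
        have := gg_contDiffAt (s := p.1 * p.2) (mul_ne_zero h1 h2)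
        exact ContDiffAt.comp (g := gg) (f := fun q : ℝ × ℝ => q.1 * q.2) p this
          (contDiffAt_fst.mul contDiffAt_snd)
      have hθ1 : ContDiffAt ℝ ∞ (fun q : ℝ × ℝ => θ (2 * q.1) (q.2 / 2)) p := by
        have h5 : ContDiffAt ℝ ∞ (fun q : ℝ × ℝ => θ q.1 q.2) (2 * p.1, p.2 / 2) :=
          θ_contDiffAt (by left; simpa using h1)
        have h6 : ContDiffAt ℝ ∞ (fun q : ℝ × ℝ => (2 * q.1, q.2 / 2)) p := by
          refine ContDiffAt.prodMk (contDiffAt_const.mul contDiffAt_fst) ?_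
          exact contDiffAt_snd.div_const 2
        exact ContDiffAt.comp (g := fun q : ℝ × ℝ => θ q.1 q.2)
          (f := fun q : ℝ × ℝ => (2 * q.1, q.2 / 2)) p h5 h6
      have hθ2 := θ_contDiffAt hp
      exact hg.mul (hθ1.sub hθ2)

section Map

variable {d : ℕ} (i₀ i₁ i₂ : Fin d)

/-- The open set `{x ∈ ℝ^d : (x₀, x₁) ≠ 0}`. -/
def Om : Opens (Rd d) where
  carrier := {x | x i₀ ≠ 0 ∨ x i₁ ≠ 0}
  is_open' := by
    apply IsOpen.union
    · exact isOpen_ne_fun (by fun_prop) continuous_const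
    · exact isOpen_ne_fun (by fun_prop) continuous_const

theorem mem_Om {x : Rd d} : x ∈ Om i₀ i₁ ↔ x i₀ ≠ 0 ∨ x i₁ ≠ 0 := Iff.rfl

/-- The map `ψ(x₀, x₁, x₂, ...) = (2 x₀, x₁ / 2, x₂ + shf(x₀, x₁), ...)`. -/
noncomputable def psi (x : Rd d) : Rd d :=
  WithLp.toLp 2 fun i => if i = i₀ then 2 * x i₀ else if i = i₁ then x i₁ / 2
    else if i = i₂ then x i₂ + shf (x i₀) (x i₁) else x i

/-- The inverse map. -/
noncomputable def psi' (x : Rd d) : Rd d :=
  WithLp.toLp 2 fun i => if i = i₀ then x i₀ / 2 else if i = i₁ then 2 * x i₁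
    else if i = i₂ then x i₂ - shf (x i₀ / 2) (2 * x i₁) else x i

variable {i₀ i₁ i₂}

theorem psi_0 (x : Rd d) : psi i₀ i₁ i₂ x i₀ = 2 * x i₀ := by simp [psi]
theorem psi_1 (h01 : i₀ ≠ i₁) (x : Rd d) : psi i₀ i₁ i₂ x i₁ = x i₁ / 2 := by
  simp [psi, h01.symm]
theorem psi_2 (h02 : i₀ ≠ i₂) (h12 : i₁ ≠ i₂) (x : Rd d) :
    psi i₀ i₁ i₂ x i₂ = x i₂ + shf (x i₀) (x i₁) := by
  simp [psi, h02.symm, h12.symm]

theorem psi_maps (h01 : i₀ ≠ i₁) :
    MapsTo (psi i₀ i₁ i₂) (Om i₀ i₁ : Set (Rd d)) (Om i₀ i₁) := by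
  intro x hx
  rcases hx with h | h
  · left; rw [psi_0]; simpa using h
  · right; rw [psi_1 h01]; simpa using h

theorem psi'_maps (h01 : i₀ ≠ i₁) :
    MapsTo (psi' i₀ i₁ i₂) (Om i₀ i₁ : Set (Rd d)) (Om i₀ i₁) := by
  intro x hx
  rcases hx with h | h
  · left; simpa [psi'] using h
  · right; simpa [psi', h01.symm] using h

theorem psi'_psi (h01 : i₀ ≠ i₁) (h02 : i₀ ≠ i₂) (h12 : i₁ ≠ i₂) (x : Rd d) :
    psi' i₀ i₁ i₂ (psi i₀ i₁ i₂ x) = x := by
  ext i
  by_cases h0 : i = i₀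
  · subst h0
    simp [psi', psi]
  by_cases h1 : i = i₁
  · subst h1
    simp [psi', psi, h01.symm]
    ring
  by_cases h2 : i = i₂
  · subst h2
    simp [psi', psi, h01.symm, h02.symm, h12.symm]
    have : 2 * (x i₁ / 2) = x i₁ := by ring
    rw [this]; ring
  · simp [psi', psi, h0, h1, h2]

theorem psi_psi' (h01 : i₀ ≠ i₁) (h02 : i₀ ≠ i₂) (h12 : i₁ ≠ i₂) (x : Rd d) :
    psi i₀ i₁ i₂ (psi' i₀ i₁ i₂ x) = x := by
  ext i
  by_cases h0 : i = i₀
  · subst h0
    simp [psi', psi]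
    ring
  by_cases h1 : i = i₁
  · subst h1
    simp [psi', psi, h01.symm]
  by_cases h2 : i = i₂
  · subst h2
    simp [psi', psi, h01.symm, h02.symm, h12.symm]
  · simp [psi', psi, h0, h1, h2]

theorem coord_contDiff (i : Fin d) : ContDiff ℝ ∞ (fun x : Rd d => x i) := by
  fun_prop

theorem psi_contDiffOn :
    ContDiffOn ℝ ∞ (psi i₀ i₁ i₂) (Om i₀ i₁ : Set (Rd d)) := by
  rw [contDiffOn_euclidean]
  intro i x hx
  apply ContDiffAt.contDiffWithinAt
  by_cases h0 : i = i₀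
  · subst h0
    simp only [psi, if_true]
    exact contDiffAt_const.mul (coord_contDiff _).contDiffAt
  by_cases h1 : i = i₁
  · subst h1
    simp only [psi, h0, if_false, if_true]
    exact (coord_contDiff _).contDiffAt.div_const _
  by_cases h2 : i = i₂
  · subst h2
    simp only [psi, h0, h1, if_false, if_true]
    refine (coord_contDiff _).contDiffAt.add ?_
    have h3 : ContDiffAt ℝ ∞ (fun q : ℝ × ℝ => shf q.1 q.2) (x i₀, x i₁) := shf_contDiffAt hx
    have h4 : ContDiffAt ℝ ∞ (fun x : Rd d => (x i₀, x i₁)) x :=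
      (coord_contDiff _).contDiffAt.prodMk (coord_contDiff _).contDiffAt
    exact ContDiffAt.comp (g := fun q : ℝ × ℝ => shf q.1 q.2)
      (f := fun x : Rd d => (x i₀, x i₁)) x h3 h4
  · simp only [psi, h0, h1, h2, if_false]
    exact (coord_contDiff _).contDiffAt

theorem psi'_contDiffOn :
    ContDiffOn ℝ ∞ (psi' i₀ i₁ i₂) (Om i₀ i₁ : Set (Rd d)) := by
  rw [contDiffOn_euclidean]
  intro i x hx
  apply ContDiffAt.contDiffWithinAt
  by_cases h0 : i = i₀
  · subst h0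
    simp only [psi', if_true]
    exact (coord_contDiff _).contDiffAt.div_const _
  by_cases h1 : i = i₁
  · subst h1
    simp only [psi', h0, if_false, if_true]
    exact contDiffAt_const.mul (coord_contDiff _).contDiffAt
  by_cases h2 : i = i₂
  · subst h2
    simp only [psi', h0, h1, if_false, if_true]
    refine (coord_contDiff _).contDiffAt.sub ?_
    have h3 : ContDiffAt ℝ ∞ (fun q : ℝ × ℝ => shf q.1 q.2) (x i₀ / 2, 2 * x i₁) := by
      apply shf_contDiffAt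
      rcases hx with h | h
      · left; simpa using h
      · right; simpa using h
    have h4 : ContDiffAt ℝ ∞ (fun x : Rd d => (x i₀ / 2, 2 * x i₁)) x :=
      ((coord_contDiff _).contDiffAt.div_const _).prodMk
        (contDiffAt_const.mul (coord_contDiff _).contDiffAt)
    exact ContDiffAt.comp (g := fun q : ℝ × ℝ => shf q.1 q.2)
      (f := fun x : Rd d => (x i₀ / 2, 2 * x i₁)) x h3 h4
  · simp only [psi', h0, h1, h2, if_false]
    exact (coord_contDiff _).contDiffAt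

theorem psi_iter (h01 : i₀ ≠ i₁) (h02 : i₀ ≠ i₂) (h12 : i₁ ≠ i₂) (n : ℕ) (x : Rd d) :
    (psi i₀ i₁ i₂)^[n] x i₀ = 2 ^ n * x i₀ ∧ (psi i₀ i₁ i₂)^[n] x i₁ = x i₁ / 2 ^ n ∧
    (psi i₀ i₁ i₂)^[n] x i₂ = x i₂ +
      gg (x i₀ * x i₁) * (θ (2 ^ n * x i₀) (x i₁ / 2 ^ n) - θ (x i₀) (x i₁)) := by
  induction n with
  | zero => simp
  | succ n ih =>
    obtain ⟨h0, h1, h2⟩ := ih
    rw [Function.iterate_succ_apply', psi_0, psi_1 h01, psi_2 h02 h12, h0, h1, h2]
    have hp : 2 ^ n * x i₀ * (x i₁ / 2 ^ n) = x i₀ * x i₁ := by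
      field_simp
    refine ⟨by ring, by field_simp; ring, ?_⟩
    simp only [shf, hp]
    have e1 : 2 * (2 ^ n * x i₀) = 2 ^ (n + 1) * x i₀ := by ring
    have e2 : x i₁ / 2 ^ n / 2 = x i₁ / 2 ^ (n + 1) := by field_simp; ring
    rw [e1, e2]
    ring

theorem psi_iter_other {i : Fin d} (h0 : i ≠ i₀) (h1 : i ≠ i₁) (h2 : i ≠ i₂) (n : ℕ) (x : Rd d) :
    (psi i₀ i₁ i₂)^[n] x i = x i := by
  induction n with
  | zero => simp
  | succ n ih =>
    rw [Function.iterate_succ_apply']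
    simp [psi, h0, h1, h2, ih]

end Map

end Pool.Agent.MP_fcbc3e_an
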